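import Mathlib
import Pool.Agent.Lib.helper22.UTower

set_option autoImplicit false

namespace Pool.Agent.Results.MP_c24ba3_gt.Separated

open Set

/-- `𝒰` is a k-cover: open sets, every compact set lies inside a member -/
def KCover {X : Type} [TopologicalSpace X] (𝒰 : Set (Set X)) : Prop :=
  (∀ U ∈ 𝒰, IsOpen U) ∧ ∀ K : Set X, IsCompact K → ∃ U ∈ 𝒰, K ⊆ U

def KMenger (X : Type) [TopologicalSpace X] : Prop :=
  ∀ 𝒰 : ℕ → Set (Set X), (∀ n, KCover (𝒰 n)) →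
    ∃ 𝓕 : ℕ → Set (Set X), (∀ n, (𝓕 n).Finite ∧ 𝓕 n ⊆ 𝒰 n) ∧ KCover (⋃ n, 𝓕 n)

def KRothberger (X : Type) [TopologicalSpace X] : Prop :=
  ∀ 𝒰 : ℕ → Set (Set X), (∀ n, KCover (𝒰 n)) →
    ∃ U : ℕ → Set X, (∀ n, U n ∈ 𝒰 n) ∧ KCover (range U)

/-- the moves of P1 in rounds `0, …, n` -/
def hist {α : Type} (𝒰 : ℕ → α) (n : ℕ) : List α := List.ofFn fun i : Fin (n + 1) => 𝒰 i

/-- P2 has a winning strategy in the game with finite selections -/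
def StratKMenger (X : Type) [TopologicalSpace X] : Prop :=
  ∃ σ : List (Set (Set X)) → Set (Set X), ∀ 𝒰 : ℕ → Set (Set X), (∀ n, KCover (𝒰 n)) →
    (∀ n, (σ (hist 𝒰 n)).Finite ∧ σ (hist 𝒰 n) ⊆ 𝒰 n) ∧ KCover (⋃ n, σ (hist 𝒰 n))

/-- P2 has a winning strategy in the game with single selections -/
def StratKRothberger (X : Type) [TopologicalSpace X] : Prop :=
  ∃ σ : List (Set (Set X)) → Set X, ∀ 𝒰 : ℕ → Set (Set X), (∀ n, KCover (𝒰 n)) →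
    (∀ n, σ (hist 𝒰 n) ∈ 𝒰 n) ∧ KCover (range fun n => σ (hist 𝒰 n))

open Pool.Agent.Lib.helper22.UTower

lemma strat : StratKMenger Tw := by
  obtain ⟨σ, hσ⟩ := markov
  refine ⟨fun l => σ (l.getD (l.length - 1) ∅) (l.length - 1), fun 𝒰 h => ?_⟩
  have e : ∀ n, σ ((hist 𝒰 n).getD ((hist 𝒰 n).length - 1) ∅) ((hist 𝒰 n).length - 1)
      = σ (𝒰 n) n := by
    intro n
    have hl : (hist 𝒰 n).length = n + 1 := by simp [hist]
    rw [List.getD_eq_getElem _ _ (by omega)]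
    simp only [hist, List.length_ofFn, List.getElem_ofFn, Nat.add_sub_cancel]
  simp only [e]
  obtain ⟨h1, h2⟩ := hσ 𝒰 h
  refine ⟨h1, ?_, fun K hK => ?_⟩
  · intro U hU
    obtain ⟨n, hn⟩ := mem_iUnion.1 hU
    exact (h n).1 U ((h1 n).2 hn)
  · obtain ⟨n, U, hU, hKU⟩ := h2 K hK
    exact ⟨U, mem_iUnion.2 ⟨n, hU⟩, hKU⟩

lemma notR : ¬ KRothberger Tw := by
  intro h
  obtain ⟨𝒰, h1, h2⟩ := noRoth
  obtain ⟨U, hU, -, hk⟩ := h 𝒰 h1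
  obtain ⟨x, hx⟩ := h2 U hU
  obtain ⟨_, ⟨n, rfl⟩, hn⟩ := hk {x} isCompact_singleton
  exact hx n (hn rfl)

theorem result : ∃ (X : Type) (_ : TopologicalSpace X), T1Space X ∧
    (KMenger X ∧ ¬ KRothberger X) ∧ (StratKMenger X ∧ ¬ StratKRothberger X) := by
  refine ⟨Tw, inferInstance, inferInstance, ⟨?_, notR⟩, strat, ?_⟩
  · obtain ⟨σ, hσ⟩ := strat
    exact fun 𝒰 h => ⟨_, hσ 𝒰 h⟩
  · rintro ⟨σ, hσ⟩
    exact notR fun 𝒰 h => ⟨_, hσ 𝒰 h⟩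

end Pool.Agent.Results.MP_c24ba3_gt.Separated
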